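import Pool.Agent.Helper77.SD.St

/-! # Project SD, module HIL: the abstract lemma -/

set_option autoImplicit false

namespace Pool.Agent.Helper95.SD

open Pool.Agent.Helper77.SD
open scoped RealInnerProductSpace

theorem hHIL : StHIL := by
  intro H _ _ T 𝒱 ρ hT hV h5 hρ h9 hK f hf
  obtain ⟨K, hK⟩ := hK f hf
  have hρ1 : ρ ≤ 1 := by linarith
  have hK0 : 0 ≤ K := by
    have := hK 0
    simp only [pow_zero, mul_one] at this
    exact le_trans (abs_nonneg _) this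
  set D : Module.End ℝ H := 1 - T with hD
  have hDa : ∀ g, D g = g - T g := fun g => rfl
  have hDV : ∀ g ∈ 𝒱, D g ∈ 𝒱 := fun g hg => by rw [hDa]; exact 𝒱.sub_mem hg (hV g hg)
  have hDn : ∀ g ∈ 𝒱, ‖D g‖ ≤ (1 / 5) * ‖g‖ := by
    intro g hg
    have h := h5 g hg
    rw [hDa, norm_sub_rev]
    have h1 : (5 * ‖T g - g‖) ^ 2 ≤ ‖g‖ ^ 2 := by nlinarith
    have h2 := abs_le_of_sq_le_sq h1 (norm_nonneg g)
    have h3 := (abs_le.1 h2).2
    linarith
  have hDp : ∀ n : ℕ, ∀ g ∈ 𝒱, (D ^ n) g ∈ 𝒱 ∧ ‖(D ^ n) g‖ ≤ (1 / 5) ^ n * ‖g‖ := by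
    intro n
    induction n with
    | zero => intro g hg; simp [hg]
    | succ n ih =>
      intro g hg
      obtain ⟨h1, h2⟩ := ih g hg
      rw [pow_succ', Module.End.mul_apply]
      refine ⟨hDV _ h1, le_trans (hDn _ h1) ?_⟩
      rw [pow_succ']
      nlinarith
  have hTp : ∀ n : ℕ, ∀ g, ‖(T ^ n) g‖ = ‖g‖ := by
    intro n
    induction n with
    | zero => intro g; simp
    | succ n ih =>
      intro g
      rw [pow_succ', Module.End.mul_apply, hT, ih]
  have hbig : ∀ n k : ℕ, |⟪f, (T ^ k) ((D ^ n) f)⟫| ≤ 2 ^ n * (K * ρ ^ k) := by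
    intro n
    induction n with
    | zero => intro k; simpa using hK k
    | succ n ih =>
      intro k
      have e : (T ^ k) ((D ^ (n + 1)) f) = (T ^ k) ((D ^ n) f) - (T ^ (k + 1)) ((D ^ n) f) := by
        rw [pow_succ' D n, Module.End.mul_apply, hDa, map_sub, pow_succ T k, Module.End.mul_apply]
      rw [e, inner_sub_right]
      have h1 := ih k
      have h2 := ih (k + 1)
      have h3 : K * ρ ^ (k + 1) ≤ K * ρ ^ k := by
        apply mul_le_mul_of_nonneg_left _ hK0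
        rw [pow_succ]
        exact mul_le_of_le_one_right (pow_nonneg hρ k) hρ1
      have h4 : (2 : ℝ) ^ n * (K * ρ ^ (k + 1)) ≤ 2 ^ n * (K * ρ ^ k) :=
        mul_le_mul_of_nonneg_left h3 (by positivity)
      calc |⟪f, (T ^ k) ((D ^ n) f)⟫ - ⟪f, (T ^ (k + 1)) ((D ^ n) f)⟫|
          ≤ |⟪f, (T ^ k) ((D ^ n) f)⟫| + |⟪f, (T ^ (k + 1)) ((D ^ n) f)⟫| := abs_sub _ _
        _ ≤ 2 ^ (n + 1) * (K * ρ ^ k) := by
            have h6 : (2 : ℝ) ^ (n + 1) * (K * ρ ^ k) = 2 * (2 ^ n * (K * ρ ^ k)) := by ring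
            linarith
  have hsum : ∀ N : ℕ, f = ∑ k ∈ Finset.range (N + 1), (N.choose k : ℝ) • (T ^ k) ((D ^ (N - k)) f) := by
    intro N
    have hc : Commute T D := by
      rw [hD]
      exact (Commute.one_right T).sub_right (Commute.refl T)
    have h := hc.add_pow N
    have h1 : T + D = 1 := by rw [hD]; abel
    rw [h1, one_pow] at h
    have h2 := congrArg (fun L : Module.End ℝ H => L f) h
    simp only [Module.End.one_apply, LinearMap.sum_apply, Module.End.mul_apply] at h2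
    calc f = _ := h2
      _ = _ := by
        refine Finset.sum_congr rfl fun k _ => ?_
        rw [Module.End.natCast_apply, map_nsmul, map_nsmul, Nat.cast_smul_eq_nsmul]
  have hmain : ∀ m : ℕ, ‖f‖ ^ 2 ≤ (4 / 5) ^ m * ‖f‖ ^ 2 + (9 * ρ) ^ m * K := by
    intro m
    have e1 : ‖f‖ ^ 2 = ∑ k ∈ Finset.range (2 * m + 1),
        ((2 * m).choose k : ℝ) * ⟪f, (T ^ k) ((D ^ (2 * m - k)) f)⟫ := by
      have e0 : ⟪f, f⟫ = ⟪f, ∑ k ∈ Finset.range (2 * m + 1),
          ((2 * m).choose k : ℝ) • (T ^ k) ((D ^ (2 * m - k)) f)⟫ :=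
        congrArg (fun g => ⟪f, g⟫) (hsum (2 * m))
      rw [← real_inner_self_eq_norm_sq, e0, inner_sum]
      refine Finset.sum_congr rfl fun k _ => ?_
      rw [inner_smul_right]
    have e2 : ∀ k ∈ Finset.range (2 * m + 1),
        ((2 * m).choose k : ℝ) * ⟪f, (T ^ k) ((D ^ (2 * m - k)) f)⟫ ≤
        ((2 * m).choose k : ℝ) * ((1 / 5) ^ m * ‖f‖ ^ 2) +
        ((2 * m).choose k : ℝ) * (2 ^ (2 * m - k) * (K * ρ ^ m)) := by
      intro k hk
      rw [← mul_add]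
      apply mul_le_mul_of_nonneg_left _ (Nat.cast_nonneg _)
      have p1 : 0 ≤ (1 / 5 : ℝ) ^ m * ‖f‖ ^ 2 := by positivity
      have p2 : 0 ≤ (2 : ℝ) ^ (2 * m - k) * (K * ρ ^ m) := by positivity
      rcases le_total k m with h | h
      · have h1 : ⟪f, (T ^ k) ((D ^ (2 * m - k)) f)⟫ ≤ ‖f‖ * ‖(T ^ k) ((D ^ (2 * m - k)) f)‖ :=
          real_inner_le_norm _ _
        rw [hTp] at h1
        have h2 := (hDp (2 * m - k) f hf).2
        have h3 : ((1 : ℝ) / 5) ^ (2 * m - k) ≤ (1 / 5) ^ m :=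
          pow_le_pow_of_le_one (by norm_num) (by norm_num) (by omega)
        have h4 : ‖f‖ * ‖(D ^ (2 * m - k)) f‖ ≤ ‖f‖ * ((1 / 5) ^ m * ‖f‖) := by
          apply mul_le_mul_of_nonneg_left _ (norm_nonneg _)
          exact le_trans h2 (mul_le_mul_of_nonneg_right h3 (norm_nonneg _))
        have h5' : ‖f‖ * ((1 / 5) ^ m * ‖f‖) = (1 / 5) ^ m * ‖f‖ ^ 2 := by ring
        linarith
      · have h1 := hbig (2 * m - k) k
        have h2 : ρ ^ k ≤ ρ ^ m := pow_le_pow_of_le_one hρ hρ1 h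
        have h3 : (2 : ℝ) ^ (2 * m - k) * (K * ρ ^ k) ≤ 2 ^ (2 * m - k) * (K * ρ ^ m) :=
          mul_le_mul_of_nonneg_left (mul_le_mul_of_nonneg_left h2 hK0) (by positivity)
        have h4 := le_abs_self (⟪f, (T ^ k) ((D ^ (2 * m - k)) f)⟫)
        linarith
    have e3 := Finset.sum_le_sum e2
    rw [← e1, Finset.sum_add_distrib] at e3
    have s1 : ∑ k ∈ Finset.range (2 * m + 1), ((2 * m).choose k : ℝ) * ((1 / 5) ^ m * ‖f‖ ^ 2) =
        (4 / 5) ^ m * ‖f‖ ^ 2 := by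
      rw [← Finset.sum_mul]
      have : ∑ k ∈ Finset.range (2 * m + 1), ((2 * m).choose k : ℝ) = 4 ^ m := by
        have := Nat.sum_range_choose (2 * m)
        have h2 : (∑ k ∈ Finset.range (2 * m + 1), ((2 * m).choose k : ℝ)) = ((2 ^ (2 * m) : ℕ) : ℝ) := by
          rw [← this]; push_cast; rfl
        rw [h2, pow_mul]; norm_num
      rw [this, ← mul_assoc, ← mul_pow]
      norm_num
    have s2 : ∑ k ∈ Finset.range (2 * m + 1), ((2 * m).choose k : ℝ) * (2 ^ (2 * m - k) * (K * ρ ^ m)) =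
        (9 * ρ) ^ m * K := by
      have : ∑ k ∈ Finset.range (2 * m + 1), ((2 * m).choose k : ℝ) * 2 ^ (2 * m - k) = 9 ^ m := by
        have h := add_pow (1 : ℝ) 2 (2 * m)
        simp only [one_pow, one_mul] at h
        have h9' : ((1 : ℝ) + 2) ^ (2 * m) = 9 ^ m := by rw [pow_mul]; norm_num
        rw [← h9', h]
        refine Finset.sum_congr rfl fun k _ => ?_
        ring
      calc _ = ∑ k ∈ Finset.range (2 * m + 1), (((2 * m).choose k : ℝ) * 2 ^ (2 * m - k)) * (K * ρ ^ m) := by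
            refine Finset.sum_congr rfl fun k _ => ?_
            ring
        _ = _ := by rw [← Finset.sum_mul, this, mul_pow]; ring
    rw [s1, s2] at e3
    exact e3
  have hlim : Filter.Tendsto (fun m : ℕ => ((4 : ℝ) / 5) ^ m * ‖f‖ ^ 2 + (9 * ρ) ^ m * K)
      Filter.atTop (nhds (0 * ‖f‖ ^ 2 + 0 * K)) := by
    refine Filter.Tendsto.add (Filter.Tendsto.mul_const _ ?_) (Filter.Tendsto.mul_const _ ?_)
    · exact tendsto_pow_atTop_nhds_zero_of_lt_one (by norm_num) (by norm_num)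
    · exact tendsto_pow_atTop_nhds_zero_of_lt_one (by positivity) h9
  have h0 : ‖f‖ ^ 2 ≤ 0 * ‖f‖ ^ 2 + 0 * K := ge_of_tendsto' hlim hmain
  have h1 : ‖f‖ ^ 2 = 0 := le_antisymm (by simpa using h0) (sq_nonneg _)
  exact norm_eq_zero.1 (pow_eq_zero_iff (two_ne_zero) |>.1 h1)

end Pool.Agent.Helper95.SD
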